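import Mathlib

/-!
# The maximal ideal and the square of the closed neighborhood ideal of a Kneser graph

For positive integers `k < n` let `K(n,k)` be the Kneser graph and `NI` its closed neighborhood
ideal in the polynomial ring `S` on its vertices, with maximal homogeneous ideal `m`.

We prove: `m` is an associated prime of `S / NI ^ 2` if and only if `n < 2 k` (then the graph
has no edges and `NI = m`) or (`2 ≤ k` and `n = 3 k - 1`).

In particular `m` is not associated for `k ≥ 3`, `2 k + 1 ≤ n ≤ 3 k - 2`, the open range.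
-/

namespace Pool.Agent.Results.MP_a8e883_al.KneserSquare

open MvPolynomial

/-- The vertices of the Kneser graph: the `k`-element subsets of an `n`-element set. -/
abbrev Vtx (n k : ℕ) : Type := {s : Finset (Fin n) // s.card = k}

/-- The Kneser graph `K(n,k)`: two (distinct) `k`-subsets are adjacent when they are disjoint. -/
def kneser (n k : ℕ) : SimpleGraph (Vtx n k) where
  Adj a b := a ≠ b ∧ Disjoint a.1 b.1
  symm := ⟨fun _ _ h => ⟨h.1.symm, h.2.symm⟩⟩
  loopless := ⟨fun _ h => h.1 rfl⟩

section general

variable {V : Type} [Fintype V]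

open Classical in
/-- The closed neighbourhood `N[v]` of a vertex. -/
noncomputable def closedNbhd (G : SimpleGraph V) (v : V) : Finset V :=
  Finset.univ.filter fun u => u = v ∨ G.Adj v u

/-- The closed neighborhood ideal: generated by the products of the variables in `N[v]`. -/
noncomputable def nbhdIdeal (K : Type) [Field K] (G : SimpleGraph V) : Ideal (MvPolynomial V K) :=
  Ideal.span (Set.range fun v => ∏ u ∈ closedNbhd G v, (X u : MvPolynomial V K))

/-- The ideal generated by all the variables. -/
noncomputable def maxIdeal (K : Type) [Field K] (V : Type) : Ideal (MvPolynomial V K) :=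
  Ideal.span (Set.range X)

/-- `P` is an associated prime of `S / I`: it is prime and of the form `{a : a f ∈ I}`. -/
def IsAssoc {S : Type} [CommRing S] (P I : Ideal S) : Prop :=
  P.IsPrime ∧ ∃ f : S, ∀ a : S, a ∈ P ↔ a * f ∈ I

end general

section proof

variable {V : Type} [Fintype V] {K : Type} [Field K] (G : SimpleGraph V)

open Classical in
/-- exponent vector of the product of the variables in the closed neighbourhood. -/
noncomputable def ind (v : V) : V →₀ ℕ := ∑ u ∈ closedNbhd G v, Finsupp.single u 1

lemma ind_apply (v w : V) [Decidable (w ∈ closedNbhd G v)] :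
    ind G v w = if w ∈ closedNbhd G v then 1 else 0 := by
  classical
  unfold ind
  rw [Finsupp.finsetSum_apply]
  simp only [Finsupp.single_apply]
  rw [Finset.sum_ite_eq']
  split_ifs <;> rfl

lemma ind_le_one (v w : V) : ind G v w ≤ 1 := by
  classical
  rw [ind_apply]
  split_ifs <;> omega

lemma ind_pos_iff (v w : V) : 1 ≤ ind G v w ↔ w ∈ closedNbhd G v := by
  classical
  rw [ind_apply]
  split_ifs with h <;> simp [h]

lemma mem_closed (v w : V) : w ∈ closedNbhd G v ↔ (w = v ∨ G.Adj v w) := by
  classical
  unfold closedNbhd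
  simp

lemma prod_eq (v : V) :
    ∏ u ∈ closedNbhd G v, (X u : MvPolynomial V K) = monomial (ind G v) 1 := by
  unfold ind
  rw [MvPolynomial.monomial_sum_one]
  rfl

/-- the exponents of the generators of the square. -/
def gens2 : Set (V →₀ ℕ) := {s | ∃ a b, s = ind G a + ind G b}

lemma sq_eq : (nbhdIdeal K G) ^ 2 =
    Ideal.span ((fun s => monomial s (1 : K)) '' (gens2 G)) := by
  unfold nbhdIdeal
  rw [pow_two, Ideal.span_mul_span']
  congr 1
  ext p
  constructor
  · rintro ⟨_, ⟨a, rfl⟩, _, ⟨b, rfl⟩, rfl⟩
    refine ⟨ind G a + ind G b, ⟨a, b, rfl⟩, ?_⟩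
    simp only [prod_eq, monomial_mul, one_mul]
  · rintro ⟨_, ⟨a, b, rfl⟩, rfl⟩
    refine ⟨_, ⟨a, rfl⟩, _, ⟨b, rfl⟩, ?_⟩
    simp only [prod_eq, monomial_mul, one_mul]

lemma mem_sq (p : MvPolynomial V K) : p ∈ (nbhdIdeal K G) ^ 2 ↔
    ∀ m ∈ p.support, ∃ a b, ind G a + ind G b ≤ m := by
  rw [sq_eq, mem_ideal_span_monomial_image]
  constructor
  · intro h m hm
    obtain ⟨s, ⟨a, b, rfl⟩, hs⟩ := h m hm
    exact ⟨a, b, hs⟩
  · intro h m hm
    obtain ⟨a, b, hs⟩ := h m hm
    exact ⟨_, ⟨a, b, rfl⟩, hs⟩

/-- the combinatorial condition: a monomial which is not in the square but is moved into it by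
every variable. -/
def Cond (f : V →₀ ℕ) : Prop :=
  (¬ ∃ a b, ind G a + ind G b ≤ f) ∧
    ∀ v, ∃ a b, ind G a + ind G b ≤ f + Finsupp.single v 1

lemma mem_max (p : MvPolynomial V K) : p ∈ maxIdeal K V ↔ coeff 0 p = 0 := by
  unfold maxIdeal
  rw [← Set.image_univ, mem_ideal_span_X_image]
  constructor
  · intro h
    by_contra h0
    obtain ⟨i, -, hi⟩ := h 0 (mem_support_iff.mpr h0)
    exact hi rfl
  · intro h m hm
    by_contra hcon
    push Not at hcon
    have hm0 : m = 0 := by
      ext i
      exact hcon i (Set.mem_univ i)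
    rw [hm0, mem_support_iff] at hm
    exact hm h

lemma assoc_iff : IsAssoc (maxIdeal K V) ((nbhdIdeal K G) ^ 2) ↔ ∃ f, Cond G f := by
  classical
  constructor
  · rintro ⟨hp, f, hf⟩
    have h1 : f ∉ (nbhdIdeal K G) ^ 2 := by
      intro h
      apply hp.ne_top
      rw [Ideal.eq_top_iff_one, hf, one_mul]
      exact h
    rw [mem_sq] at h1
    push Not at h1
    obtain ⟨m, hm, hmab⟩ := h1
    refine ⟨m, ?_, ?_⟩
    · rintro ⟨a, b, hab⟩
      exact hmab a b hab
    · intro v
      have h2 : (X v : MvPolynomial V K) * f ∈ (nbhdIdeal K G) ^ 2 := by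
        rw [← hf]
        exact Ideal.subset_span ⟨v, rfl⟩
      rw [mem_sq] at h2
      apply h2
      rw [mem_support_iff, add_comm, X, coeff_monomial_mul, one_mul]
      exact mem_support_iff.mp hm
  · rintro ⟨m, hm1, hm2⟩
    constructor
    · have hker : maxIdeal K V = RingHom.ker (constantCoeff : MvPolynomial V K →+* K) := by
        ext p
        rw [mem_max, RingHom.mem_ker]
        rfl
      rw [hker]
      exact RingHom.ker_isPrime _
    · refine ⟨monomial m 1, fun a => ⟨fun ha => ?_, fun ha => ?_⟩⟩
      · unfold maxIdeal at ha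
        refine Submodule.span_induction (p := fun x _ => x * monomial m 1 ∈ (nbhdIdeal K G) ^ 2)
          ?_ ?_ ?_ ?_ ha
        · rintro _ ⟨v, rfl⟩
          rw [mem_sq]
          intro s hs
          rw [X, monomial_mul, one_mul] at hs
          have := support_monomial_subset hs
          rw [Finset.mem_singleton] at this
          rw [this, add_comm]
          exact hm2 v
        · rw [zero_mul]; exact Ideal.zero_mem _
        · intro x y _ _ hx hy
          rw [add_mul]; exact Ideal.add_mem _ hx hy
        · intro c x _ hx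
          rw [smul_eq_mul, mul_assoc]; exact Ideal.mul_mem_left _ _ hx
      · rw [mem_max]
        by_contra h0
        apply hm1
        rw [mem_sq] at ha
        apply ha
        rw [mem_support_iff]
        have : coeff m (a * monomial m 1) = coeff 0 a := by
          have := coeff_mul_monomial (0 : V →₀ ℕ) m (1 : K) a
          rw [zero_add, mul_one] at this
          exact this
        rw [this]
        exact h0

/-- consequences of the condition -/
lemma cond_struct {f : V →₀ ℕ} (hf : Cond G f) :
    (∀ v, f v ≤ 1) ∧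
    (∀ a b, (∀ w, w ∈ closedNbhd G a → 1 ≤ f w) → (∀ w, w ∈ closedNbhd G b → 1 ≤ f w) →
      ∃ w, w ∈ closedNbhd G a ∧ w ∈ closedNbhd G b) ∧
    (∀ v, 1 ≤ f v → ∃ a b, (∀ w, (w ∈ closedNbhd G a ∧ w ∈ closedNbhd G b) ↔ w = v) ∧
      (∀ w, w ∈ closedNbhd G a → 1 ≤ f w) ∧ (∀ w, w ∈ closedNbhd G b → 1 ≤ f w)) ∧
    (∀ v, f v = 0 → ∃ a b, (∀ w, w ∈ closedNbhd G a → w ∉ closedNbhd G b) ∧
      (∀ w, w ∈ closedNbhd G a → w = v ∨ 1 ≤ f w) ∧
      (∀ w, w ∈ closedNbhd G b → w = v ∨ 1 ≤ f w)) := by
  classical
  obtain ⟨h1, h2⟩ := hf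
  have key : ∀ v, ∃ a b, ind G a v + ind G b v = f v + 1 ∧
      ∀ w, w ≠ v → ind G a w + ind G b w ≤ f w := by
    intro v
    obtain ⟨a, b, hab⟩ := h2 v
    refine ⟨a, b, ?_, ?_⟩
    · by_contra hne
      apply h1
      refine ⟨a, b, fun w => ?_⟩
      have hw := hab w
      by_cases hwv : w = v
      · subst hwv
        simp only [Finsupp.add_apply, Finsupp.single_eq_same] at hw ⊢
        omega
      · simp only [Finsupp.add_apply, Finsupp.single_apply] at hw ⊢
        rw [if_neg (fun h => hwv h.symm)] at hw
        omega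
    · intro w hwv
      have hw := hab w
      simp only [Finsupp.add_apply, Finsupp.single_apply] at hw
      rw [if_neg (fun h => hwv h.symm)] at hw
      omega
  have hle : ∀ v, f v ≤ 1 := by
    intro v
    obtain ⟨a, b, hab, -⟩ := key v
    have := ind_le_one G a v
    have := ind_le_one G b v
    omega
  refine ⟨hle, ?_, ?_, ?_⟩
  · intro a b ha hb
    by_contra hcon
    push Not at hcon
    apply h1
    refine ⟨a, b, fun w => ?_⟩
    rw [Finsupp.add_apply, ind_apply, ind_apply]
    by_cases hwa : w ∈ closedNbhd G a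
    · rw [if_pos hwa, if_neg (hcon w hwa)]
      have := ha w hwa
      omega
    · by_cases hwb : w ∈ closedNbhd G b
      · rw [if_neg hwa, if_pos hwb]
        have := hb w hwb
        omega
      · rw [if_neg hwa, if_neg hwb]
        omega
  · intro v hv
    obtain ⟨a, b, hab, hw⟩ := key v
    have h1a := ind_le_one G a v
    have h1b := ind_le_one G b v
    have hva : 1 ≤ ind G a v := by omega
    have hvb : 1 ≤ ind G b v := by omega
    refine ⟨a, b, ?_, ?_, ?_⟩
    · intro w
      constructor
      · rintro ⟨hwa, hwb⟩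
        by_contra hwv
        have := hw w hwv
        have := hle w
        rw [← ind_pos_iff] at hwa hwb
        omega
      · rintro rfl
        exact ⟨(ind_pos_iff G a w).mp hva, (ind_pos_iff G b w).mp hvb⟩
    · intro w hwa
      by_cases hwv : w = v
      · rw [hwv]; exact hv
      · have := hw w hwv
        rw [← ind_pos_iff] at hwa
        omega
    · intro w hwb
      by_cases hwv : w = v
      · rw [hwv]; exact hv
      · have := hw w hwv
        rw [← ind_pos_iff] at hwb
        omega
  · intro v hv
    obtain ⟨a, b, hab, hw⟩ := key v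
    refine ⟨a, b, ?_, ?_, ?_⟩
    · intro w hwa hwb
      rw [← ind_pos_iff] at hwa hwb
      by_cases hwv : w = v
      · subst hwv
        omega
      · have := hw w hwv
        have := hle w
        omega
    · intro w hwa
      by_cases hwv : w = v
      · exact Or.inl hwv
      · right
        have := hw w hwv
        rw [← ind_pos_iff] at hwa
        omega
    · intro w hwb
      by_cases hwv : w = v
      · exact Or.inl hwv
      · right
        have := hw w hwv
        rw [← ind_pos_iff] at hwb
        omega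

end proof

section kneser

variable {n k : ℕ}

lemma adj_iff (hk : 0 < k) (a b : Vtx n k) : (kneser n k).Adj a b ↔ Disjoint a.1 b.1 := by
  constructor
  · exact fun h => h.2
  · intro h
    refine ⟨?_, h⟩
    rintro rfl
    have h1 : a.1 = ∅ := by simpa using h
    have h2 := a.2
    rw [h1] at h2
    simp at h2
    omega

lemma mem_cl (hk : 0 < k) (v w : Vtx n k) :
    w ∈ closedNbhd (kneser n k) v ↔ (w = v ∨ Disjoint v.1 w.1) := by
  rw [mem_closed, adj_iff hk]

/-- the vertex obtained by exchanging one element. -/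
lemma swap_vtx (a : Vtx n k) {x y : Fin n} (hx : x ∈ a.1) (hy : y ∉ a.1) :
    (insert y (a.1.erase x)).card = k := by
  have h1 : y ∉ a.1.erase x := fun h => hy (Finset.mem_of_mem_erase h)
  have h2 := a.2
  have h3 : 0 < a.1.card := Finset.card_pos.mpr ⟨x, hx⟩
  rw [Finset.card_insert_of_notMem h1, Finset.card_erase_of_mem hx]
  omega

/-- The obstruction for `2 k ≤ n`: necessary conditions. -/
lemma necessary (hk : 0 < k) (hn : 2 * k ≤ n) {f : Vtx n k →₀ ℕ}
    (hf : Cond (kneser n k) f) : 2 ≤ k ∧ n = 3 * k - 1 := by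
  classical
  obtain ⟨-, hi, hii, hiii⟩ := cond_struct _ hf
  -- a vertex in the support
  have hVne : Nonempty (Vtx n k) := by
    obtain ⟨s, hs, hc⟩ := Finset.exists_subset_card_eq (s := (Finset.univ : Finset (Fin n)))
      (n := k) (by rw [Finset.card_univ, Fintype.card_fin]; omega)
    exact ⟨⟨s, hc⟩⟩
  obtain ⟨v0⟩ := hVne
  have hFne : ∃ v, 1 ≤ f v := by
    by_contra hcon
    push Not at hcon
    have hz : f v0 = 0 := by
      have := hcon v0
      omega
    obtain ⟨a, b, hd, ha, hb⟩ := hiii v0 hz
    have ha1 := ha a ((mem_cl hk a a).mpr (Or.inl rfl))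
    have hb1 := hb b ((mem_cl hk b b).mpr (Or.inl rfl))
    have ha2 : a = v0 := by
      rcases ha1 with h | h
      · exact h
      · have := hcon a; omega
    have hb2 : b = v0 := by
      rcases hb1 with h | h
      · exact h
      · have := hcon b; omega
    subst ha2
    subst hb2
    exact hd b ((mem_cl hk b b).mpr (Or.inl rfl)) ((mem_cl hk b b).mpr (Or.inl rfl))
  -- the strengthened second property
  have hii' : ∀ v : Vtx n k, 1 ≤ f v → ∃ a b : Vtx n k, a ≠ b ∧ ¬ Disjoint a.1 b.1 ∧
      Disjoint a.1 v.1 ∧ Disjoint b.1 v.1 ∧ (∀ x, x ∉ v.1 → x ∈ a.1 ∨ x ∈ b.1) ∧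
      (∀ w, w ∈ closedNbhd (kneser n k) a → 1 ≤ f w) ∧
      (∀ w, w ∈ closedNbhd (kneser n k) b → 1 ≤ f w) := by
    intro v hv
    obtain ⟨a, b, hab, ha, hb⟩ := hii v hv
    have hnd : ¬ Disjoint a.1 b.1 := by
      intro hdis
      have h1 := (hab a).mp ⟨(mem_cl hk a a).mpr (Or.inl rfl),
        (mem_cl hk b a).mpr (Or.inr hdis.symm)⟩
      have h2 := (hab b).mp ⟨(mem_cl hk a b).mpr (Or.inr hdis),
        (mem_cl hk b b).mpr (Or.inl rfl)⟩
      have h3 : a = b := h1.trans h2.symm
      subst h3
      exact ((adj_iff hk a a).mpr hdis).1 rfl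
    have hne : a ≠ b := by
      rintro rfl
      -- a has a neighbour
      obtain ⟨s, hs, hc⟩ := Finset.exists_subset_card_eq (s := a.1ᶜ)
        (n := k) (by rw [Finset.card_compl, a.2, Fintype.card_fin]; omega)
      have hdis : Disjoint a.1 s := by
        rw [Finset.disjoint_left]
        intro x hx hx'
        exact (Finset.mem_compl.mp (hs hx')) hx
      have h1 := (hab ⟨s, hc⟩).mp ⟨(mem_cl hk a _).mpr (Or.inr hdis),
        (mem_cl hk a _).mpr (Or.inr hdis)⟩
      have h2 := (hab a).mp ⟨(mem_cl hk a a).mpr (Or.inl rfl),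
        (mem_cl hk a a).mpr (Or.inl rfl)⟩
      rw [← h2] at h1
      have h3 : s = a.1 := congrArg Subtype.val h1
      rw [h3] at hdis
      exact ((adj_iff hk a a).mpr hdis).1 rfl
    have hv' := (hab v).mpr rfl
    rw [mem_cl hk, mem_cl hk] at hv'
    have hva : Disjoint a.1 v.1 := by
      rcases hv'.1 with h | h
      · subst h
        rcases hv'.2 with h' | h'
        · exact absurd h' hne
        · exact absurd h'.symm hnd
      · exact h
    have hvb : Disjoint b.1 v.1 := by
      rcases hv'.2 with h | h
      · subst h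
        exact absurd hva hnd
      · exact h
    refine ⟨a, b, hne, hnd, hva, hvb, ?_, ha, hb⟩
    intro x hxv
    by_contra hcon
    push Not at hcon
    obtain ⟨hxa, hxb⟩ := hcon
    obtain ⟨y, hy⟩ : ∃ y, y ∈ v.1 := by
      have : 0 < v.1.card := by rw [v.2]; exact hk
      exact Finset.card_pos.mp this
    have hd : ∀ c : Vtx n k, Disjoint c.1 v.1 → x ∉ c.1 →
        Disjoint c.1 (insert x (v.1.erase y)) := by
      intro c hc hxc
      rw [Finset.disjoint_insert_right]
      refine ⟨hxc, ?_⟩
      exact Finset.disjoint_of_subset_right (Finset.erase_subset _ _) hc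
    have h1 := (hab ⟨insert x (v.1.erase y), swap_vtx v hy hxv⟩).mp
      ⟨(mem_cl hk a _).mpr (Or.inr (hd a hva hxa)), (mem_cl hk b _).mpr (Or.inr (hd b hvb hxb))⟩
    have h2 : x ∈ v.1 := by
      rw [← h1]
      exact Finset.mem_insert_self _ _
    exact hxv h2
  obtain ⟨v, hv⟩ := hFne
  obtain ⟨a, b, hne, hnd, hav, hbv, hcov, ha, hb⟩ := hii' v hv
  -- cardinality
  have hinter : 0 < (a.1 ∩ b.1).card := by
    rw [Finset.card_pos]
    rw [Finset.disjoint_iff_inter_eq_empty] at hnd
    exact Finset.nonempty_iff_ne_empty.mpr hnd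
  have hk2 : 2 ≤ k := by
    by_contra hlt
    have hk1 : k = 1 := by omega
    have h1 : (a.1 ∩ b.1).card ≤ a.1.card := Finset.card_le_card Finset.inter_subset_left
    have h2 : a.1 ∩ b.1 = a.1 := by
      apply Finset.eq_of_subset_of_card_le Finset.inter_subset_left
      rw [a.2]; omega
    have h3 : a.1 ∩ b.1 = b.1 := by
      apply Finset.eq_of_subset_of_card_le Finset.inter_subset_right
      rw [b.2]; omega
    exact hne (Subtype.ext (h2.symm.trans h3))
  have hcard1 : n ≤ 3 * k - 1 := by
    have h1 : (Finset.univ : Finset (Fin n)) ⊆ (a.1 ∪ b.1) ∪ v.1 := by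
      intro x _
      by_cases hx : x ∈ v.1
      · exact Finset.mem_union_right _ hx
      · rcases hcov x hx with h | h
        · exact Finset.mem_union_left _ (Finset.mem_union_left _ h)
        · exact Finset.mem_union_left _ (Finset.mem_union_right _ h)
    have h2 := Finset.card_le_card h1
    rw [Finset.card_univ, Fintype.card_fin] at h2
    have h3 := Finset.card_union_le (a.1 ∪ b.1) v.1
    have h4 := Finset.card_union_add_card_inter a.1 b.1
    rw [a.2, b.2] at h4
    rw [v.2] at h3
    omega
  refine ⟨hk2, ?_⟩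
  by_contra hn3
  have hn' : n ≤ 3 * k - 2 := by omega
  -- a is in the support, so has a companion a1 disjoint from a
  have haF : 1 ≤ f a := ha a ((mem_cl hk a a).mpr (Or.inl rfl))
  obtain ⟨a1, a2, hne1, hnd1, ha1a, ha2a, hcov1, hA1, hA2⟩ := hii' a haF
  have hex : ∃ y, y ∉ a.1 ∧ y ∉ a1.1 := by
    by_contra hcon
    push Not at hcon
    -- then n = 2k; in this case a1 = a2
    have hsub : (Finset.univ : Finset (Fin n)) ⊆ a.1 ∪ a1.1 := by
      intro x _
      by_cases hx : x ∈ a.1
      · exact Finset.mem_union_left _ hx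
      · exact Finset.mem_union_right _ (hcon x hx)
    have h2 := Finset.card_le_card hsub
    rw [Finset.card_univ, Fintype.card_fin] at h2
    have h3 : a2.1 ⊆ a1.1 := by
      intro x hx
      have hxa : x ∉ a.1 := fun h => (Finset.disjoint_left.mp ha2a hx) h
      exact hcon x hxa
    have h4 : a2.1 = a1.1 := Finset.eq_of_subset_of_card_le h3 (by rw [a1.2, a2.2])
    exact hne1 (Subtype.ext h4.symm)
  obtain ⟨y, hya, hya1⟩ := hex
  obtain ⟨x, hx⟩ : ∃ x, x ∈ a1.1 := by
    have : 0 < a1.1.card := by rw [a1.2]; exact hk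
    exact Finset.card_pos.mp this
  have hxa : x ∉ a.1 := fun h => (Finset.disjoint_left.mp ha1a hx) h
  have hxy : x ≠ y := by
    rintro rfl
    exact hya1 hx
  let v' : Vtx n k := ⟨insert y (a1.1.erase x), swap_vtx a1 hx hya1⟩
  have hv'F : 1 ≤ f v' := by
    apply ha
    rw [mem_cl hk]
    right
    show Disjoint a.1 (insert y (a1.1.erase x))
    rw [Finset.disjoint_insert_right]
    exact ⟨hya, Finset.disjoint_of_subset_right (Finset.erase_subset _ _) ha1a.symm⟩
  obtain ⟨b1, b2, hneb, hndb, hb1v, hb2v, hcovb, hB1, hB2⟩ := hii' v' hv'F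
  have hxv' : x ∉ v'.1 := by
    show x ∉ insert y (a1.1.erase x)
    rw [Finset.mem_insert]
    push Not
    exact ⟨hxy, Finset.notMem_erase x _⟩
  have main : ∀ c : Vtx n k, x ∈ c.1 → Disjoint c.1 v'.1 →
      (∀ w, w ∈ closedNbhd (kneser n k) c → 1 ≤ f w) → False := by
    intro c hxc hcv hC
    have hint : ∀ z, z ∈ c.1 → z ∈ a1.1 → z = x := by
      intro z hzc hz1
      by_contra hzx
      apply Finset.disjoint_left.mp hcv hzc
      show z ∈ insert y (a1.1.erase x)
      exact Finset.mem_insert_of_mem (Finset.mem_erase.mpr ⟨hzx, hz1⟩)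
    have hcard : (c.1 ∩ a1.1).card ≤ 1 := by
      rw [Finset.card_le_one]
      intro z hz w hw
      rw [Finset.mem_inter] at hz hw
      rw [hint z hz.1 hz.2, hint w hw.1 hw.2]
    have hunion : 2 * k - 1 ≤ (c.1 ∪ a1.1).card := by
      have := Finset.card_union_add_card_inter c.1 a1.1
      rw [c.2, a1.2] at this
      omega
    have hnc : ¬ Disjoint c.1 a1.1 := by
      intro h
      exact Finset.disjoint_left.mp h hxc hx
    have hca : c ≠ a1 := by
      rintro rfl
      have : (c.1 ∩ c.1).card = k := by rw [Finset.inter_self, c.2]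
      omega
    obtain ⟨w, hwc, hwa⟩ := hi c a1 hC hA1
    rw [mem_cl hk] at hwc hwa
    rcases hwc with h | h
    · subst h
      rcases hwa with h' | h'
      · exact hca h'
      · exact hnc h'.symm
    · rcases hwa with h' | h'
      · subst h'
        exact hnc h
      · have hdis : Disjoint (c.1 ∪ a1.1) w.1 := Finset.disjoint_union_left.mpr ⟨h, h'⟩
        have h5 := Finset.card_union_of_disjoint hdis
        have h6 := Finset.card_le_univ ((c.1 ∪ a1.1) ∪ w.1)
        rw [Fintype.card_fin] at h6
        rw [w.2] at h5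
        omega
  rcases hcovb x hxv' with h | h
  · exact main b1 h hb1v hB1
  · exact main b2 h hb2v hB2

/-- The edgeless case. -/
lemma edgeless (hk : 0 < k) (hkn : k < n) (hn : n < 2 * k) :
    ∃ f, Cond (kneser n k) f := by
  classical
  obtain ⟨s, hs, hc⟩ := Finset.exists_subset_card_eq (s := (Finset.univ : Finset (Fin n)))
    (n := k) (by rw [Finset.card_univ, Fintype.card_fin]; omega)
  let v0 : Vtx n k := ⟨s, hc⟩
  have hnd : ∀ a b : Vtx n k, ¬ Disjoint a.1 b.1 := by
    intro a b h
    have h5 := Finset.card_union_of_disjoint h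
    have h6 := Finset.card_le_univ (a.1 ∪ b.1)
    rw [Fintype.card_fin] at h6
    rw [a.2, b.2] at h5
    omega
  have hind : ∀ a : Vtx n k, ind (kneser n k) a = Finsupp.single a 1 := by
    intro a
    ext w
    rw [ind_apply, Finsupp.single_apply]
    have : w ∈ closedNbhd (kneser n k) a ↔ a = w := by
      rw [mem_cl hk]
      constructor
      · rintro (h | h)
        · exact h.symm
        · exact absurd h (hnd _ _)
      · intro h
        exact Or.inl h.symm
    by_cases h : a = w
    · rw [if_pos h, if_pos (this.mpr h)]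
    · rw [if_neg h, if_neg (fun h' => h (this.mp h'))]
  refine ⟨Finsupp.single v0 1, ?_, ?_⟩
  · rintro ⟨a, b, hab⟩
    rw [hind, hind] at hab
    have h1 := hab a
    have h2 := hab b
    simp only [Finsupp.add_apply, Finsupp.single_apply] at h1 h2
    by_cases hav : v0 = a
    · by_cases hbv : v0 = b
      · subst hav
        subst hbv
        simp at h1
      · rw [if_neg hbv] at h2
        simp at h2
    · rw [if_neg hav] at h1
      simp at h1
  · intro v
    refine ⟨v0, v, ?_⟩
    rw [hind, hind]

/-- The critical case `n = 3 k - 1`. -/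
lemma critical (hk2 : 2 ≤ k) (hn : n = 3 * k - 1) : ∃ f, Cond (kneser n k) f := by
  classical
  have hk : 0 < k := by omega
  refine ⟨Finsupp.equivFunOnFinite.symm (fun _ => 1), ?_, ?_⟩
  · rintro ⟨a, b, hab⟩
    -- find a common element of the closed neighbourhoods
    have hw : ∃ w, w ∈ closedNbhd (kneser n k) a ∧ w ∈ closedNbhd (kneser n k) b := by
      by_cases hd : Disjoint a.1 b.1
      · exact ⟨b, (mem_cl hk a b).mpr (Or.inr hd), (mem_cl hk b b).mpr (Or.inl rfl)⟩
      · have hinter : 0 < (a.1 ∩ b.1).card := by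
          rw [Finset.card_pos]
          rw [Finset.disjoint_iff_inter_eq_empty] at hd
          exact Finset.nonempty_iff_ne_empty.mpr hd
        have h4 := Finset.card_union_add_card_inter a.1 b.1
        rw [a.2, b.2] at h4
        obtain ⟨s, hs, hc⟩ := Finset.exists_subset_card_eq (s := (a.1 ∪ b.1)ᶜ)
          (n := k) (by rw [Finset.card_compl, Fintype.card_fin]; omega)
        have hda : Disjoint (a.1 ∪ b.1) s := by
          rw [Finset.disjoint_left]
          intro x hx hx'
          exact (Finset.mem_compl.mp (hs hx')) hx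
        rw [Finset.disjoint_union_left] at hda
        exact ⟨⟨s, hc⟩, (mem_cl hk a _).mpr (Or.inr hda.1), (mem_cl hk b _).mpr (Or.inr hda.2)⟩
    obtain ⟨w, hwa, hwb⟩ := hw
    have := hab w
    rw [Finsupp.add_apply, ind_apply, ind_apply, if_pos hwa, if_pos hwb] at this
    simp at this
  · intro v
    -- the complement of v has 2k-1 elements
    have hcv : v.1ᶜ.card = 2 * k - 1 := by
      rw [Finset.card_compl, v.2, Fintype.card_fin]; omega
    obtain ⟨s, hs, hc⟩ := Finset.exists_subset_card_eq (s := v.1ᶜ) (n := k) (by omega)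
    obtain ⟨x, hx⟩ : ∃ x, x ∈ s := by
      have : 0 < s.card := by rw [hc]; exact hk
      exact Finset.card_pos.mp this
    have hsd : (v.1ᶜ \ s).card = k - 1 := by
      rw [Finset.card_sdiff_of_subset hs]; omega
    have hxs : x ∉ v.1ᶜ \ s := by
      rw [Finset.mem_sdiff]; push Not; intro _; exact hx
    have htc : (insert x (v.1ᶜ \ s)).card = k := by
      rw [Finset.card_insert_of_notMem hxs, hsd]; omega
    let a : Vtx n k := ⟨s, hc⟩
    let b : Vtx n k := ⟨insert x (v.1ᶜ \ s), htc⟩
    have hxv : x ∉ v.1 := Finset.mem_compl.mp (hs hx)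
    have hav : Disjoint a.1 v.1 := by
      rw [Finset.disjoint_left]
      intro z hz hz'
      exact Finset.mem_compl.mp (hs hz) hz'
    have hbv : Disjoint b.1 v.1 := by
      rw [Finset.disjoint_left]
      intro z hz hz'
      have hz2 : z ∈ insert x (v.1ᶜ \ s) := hz
      rw [Finset.mem_insert, Finset.mem_sdiff, Finset.mem_compl] at hz2
      rcases hz2 with h | h
      · exact hxv (h ▸ hz')
      · exact h.1 hz'
    have hab : ¬ Disjoint a.1 b.1 := by
      intro h
      exact Finset.disjoint_left.mp h hx (Finset.mem_insert_self _ _)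
    have hne : a ≠ b := by
      intro h
      have h1 : s = insert x (v.1ᶜ \ s) := congrArg Subtype.val h
      have h2 : ∃ y, y ∈ v.1ᶜ \ s := by
        have : 0 < (v.1ᶜ \ s).card := by rw [hsd]; omega
        exact Finset.card_pos.mp this
      obtain ⟨y, hy⟩ := h2
      have h3 : y ∈ s := by
        rw [h1]; exact Finset.mem_insert_of_mem hy
      exact (Finset.mem_sdiff.mp hy).2 h3
    refine ⟨a, b, fun w => ?_⟩
    rw [Finsupp.add_apply, Finsupp.add_apply, ind_apply, ind_apply, Finsupp.single_apply]
    simp only [Finsupp.equivFunOnFinite_symm_apply_apply]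
    have hcase : w ∈ closedNbhd (kneser n k) a → w ∈ closedNbhd (kneser n k) b → v = w := by
      intro hwa hwb
      rw [mem_cl hk] at hwa hwb
      rcases hwa with h | h
      · subst h
        rcases hwb with h' | h'
        · exact absurd h' hne
        · exact absurd h'.symm hab
      · rcases hwb with h' | h'
        · subst h'
          exact absurd h hab
        · apply Subtype.ext
          symm
          apply Finset.eq_of_subset_of_card_le
          · intro z hz
            by_contra hzv
            by_cases hzs : z ∈ s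
            · exact Finset.disjoint_left.mp h hzs hz
            · have : z ∈ insert x (v.1ᶜ \ s) :=
                Finset.mem_insert_of_mem (Finset.mem_sdiff.mpr ⟨Finset.mem_compl.mpr hzv, hzs⟩)
              exact Finset.disjoint_left.mp h' this hz
          · rw [v.2, w.2]
    by_cases hwa : w ∈ closedNbhd (kneser n k) a
    · by_cases hwb : w ∈ closedNbhd (kneser n k) b
      · rw [if_pos hwa, if_pos hwb, if_pos (hcase hwa hwb)]
      · rw [if_pos hwa, if_neg hwb]; omega
    · by_cases hwb : w ∈ closedNbhd (kneser n k) b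
      · rw [if_neg hwa, if_pos hwb]; omega
      · rw [if_neg hwa, if_neg hwb]; omega

end kneser

/-- **Main theorem.** For all positive integers `k < n` and every field `K`: the maximal
homogeneous ideal is an associated prime of `S / NI(K(n,k))^2` if and only if either `n < 2 k`
(the graph has no edges, and `NI` is the maximal ideal) or `k ≥ 2` and `n = 3 k - 1`. -/
theorem result (K : Type) [Field K] (n k : ℕ) (hk : 0 < k) (hkn : k < n) :
    IsAssoc (maxIdeal K (Vtx n k)) ((nbhdIdeal K (kneser n k)) ^ 2) ↔
      (n < 2 * k ∨ (2 ≤ k ∧ n = 3 * k - 1)) := by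
  rw [assoc_iff]
  constructor
  · rintro ⟨f, hf⟩
    by_cases hn : n < 2 * k
    · exact Or.inl hn
    · exact Or.inr (necessary hk (by omega) hf)
  · rintro (h | ⟨h1, h2⟩)
    · exact edgeless hk hkn h
    · exact critical h1 h2

end Pool.Agent.Results.MP_a8e883_al.KneserSquare
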